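import Pool.Agent.helper81.CW.Spec1

/-! # Project cw, module U1 -/

open MeasureTheory Set
open scoped ENNReal

namespace Pool.Agent.helper81.CW

theorem U1_coord (b c : ℝ) : (max (|b| - |c|) 0) ^ 2 ≤ (min (c + b) 0) ^ 2 + (min (c - b) 0) ^ 2 := by
  rcases le_or_gt |b| |c| with h | h
  · rw [max_eq_right (by linarith), zero_pow two_ne_zero]
    positivity
  · rw [max_eq_left (by linarith)]
    rcases le_or_gt 0 b with hb | hb
    · rw [abs_of_nonneg hb] at h ⊢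
      have h1 := le_abs_self c
      have h2 := neg_abs_le c
      have h3 : min (c - b) 0 = c - b := min_eq_left (by linarith)
      have h4 : (b - |c|) ^ 2 ≤ (c - b) ^ 2 := by
        have h5 : (c - b) ^ 2 = (b - c) ^ 2 := by ring
        rw [h5]
        exact pow_le_pow_left₀ (by linarith) (by linarith) 2
      rw [h3]
      nlinarith [sq_nonneg (min (c + b) 0)]
    · rw [abs_of_neg hb] at h ⊢
      have h1 := le_abs_self c
      have h2 := neg_abs_le c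
      have h3 : min (c + b) 0 = c + b := min_eq_left (by linarith)
      have h4 : (-b - |c|) ^ 2 ≤ (c + b) ^ 2 := by
        have h5 : (c + b) ^ 2 = (-b - c) ^ 2 := by ring
        rw [h5]
        exact pow_le_pow_left₀ (by linarith) (by linarith) 2
      rw [h3]
      nlinarith [sq_nonneg (min (c - b) 0)]

theorem U1_nn_sq {n : ℕ} (z : E n) : nn z ^ 2 = ∑ i, (min (z i) 0) ^ 2 := by
  unfold nn
  exact Real.sq_sqrt (Finset.sum_nonneg fun i _ => sq_nonneg _)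

theorem U1_nn_nonneg {n : ℕ} (z : E n) : 0 ≤ nn z := Real.sqrt_nonneg _

theorem U1 : U1_stmt := by
  intro n A c hA hsym
  have hvol : volume ((fun b : E n => b + c) ⁻¹' A) = volume A := measure_preimage_add_right _ _ _
  rw [← hvol]
  apply measure_mono
  intro b hb
  have hx : b + c ∈ A := hb
  have h1 : b + c ∈ M n := hA hx
  have h2 : (2 : ℝ) • c - (b + c) ∈ M n := hA (hsym _ hx)
  have e1 : b + c = c + b := add_comm _ _
  have e2 : (2 : ℝ) • c - (b + c) = c - b := by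
    rw [two_smul]; abel
  rw [e1] at h1
  rw [e2] at h2
  have h1' : ‖c + b‖ ^ 2 + Real.sqrt 2 * nn (c + b) ≤ 1 / 2 := h1
  have h2' : ‖c - b‖ ^ 2 + Real.sqrt 2 * nn (c - b) ≤ 1 / 2 := h2
  rw [norm_add_sq_real] at h1'
  rw [norm_sub_sq_real] at h2'
  have hs : (0 : ℝ) < Real.sqrt 2 := Real.sqrt_pos.2 (by norm_num)
  have hs2 : Real.sqrt 2 ^ 2 = 2 := Real.sq_sqrt (by norm_num)
  have n1 := U1_nn_nonneg (c + b)
  have n2 := U1_nn_nonneg (c - b)
  have m1 : 0 ≤ Real.sqrt 2 * nn (c + b) := mul_nonneg hs.le n1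
  have m2 : 0 ≤ Real.sqrt 2 * nn (c - b) := mul_nonneg hs.le n2
  set δ : ℝ := inner ℝ c b with hδ
  set p := Real.sqrt 2 * nn (c + b) with hp
  set q := Real.sqrt 2 * nn (c - b) with hq
  refine ⟨?_, ?_⟩
  · show ‖b‖ ^ 2 + 2 * |inner ℝ c b| ≤ 1 / 2 - ‖c‖ ^ 2
    rw [← hδ]
    rcases abs_cases δ with ⟨h, _⟩ | ⟨h, _⟩ <;> rw [h] <;> linarith
  · show ∑ i, (max (|b i| - |c i|) 0) ^ 2 ≤ (1 / 2 - ‖c‖ ^ 2 - ‖b‖ ^ 2) ^ 2 + 4 * (inner ℝ c b) ^ 2
    rw [← hδ]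
    have h3 : ∑ i, (max (|b i| - |c i|) 0) ^ 2 ≤ nn (c + b) ^ 2 + nn (c - b) ^ 2 := by
      rw [U1_nn_sq, U1_nn_sq, ← Finset.sum_add_distrib]
      apply Finset.sum_le_sum
      intro i _
      have := U1_coord (b i) (c i)
      simpa using this
    have h4 : 2 * nn (c + b) ^ 2 = p ^ 2 := by rw [hp, mul_pow, hs2]
    have h5 : 2 * nn (c - b) ^ 2 = q ^ 2 := by rw [hq, mul_pow, hs2]
    have h6 : p ^ 2 ≤ (1 / 2 - ‖c‖ ^ 2 - ‖b‖ ^ 2 - 2 * δ) ^ 2 :=
      pow_le_pow_left₀ m1 (by linarith) 2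
    have h7 : q ^ 2 ≤ (1 / 2 - ‖c‖ ^ 2 - ‖b‖ ^ 2 + 2 * δ) ^ 2 :=
      pow_le_pow_left₀ m2 (by linarith) 2
    nlinarith

end Pool.Agent.helper81.CW
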