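import Pool.Agent.helper81.CW.Spec1

/-! # Project cw, module U3: Chernoff bound for a product set -/

open MeasureTheory Set
open scoped ENNReal

namespace Pool.Agent.helper81.CW

/-- the one-dimensional integral -/
theorem U3_one (a r : ℝ) (ha : 0 < a) (hr : 0 ≤ r) :
    Integrable (fun t : ℝ => Real.exp (-a * (max (|t| - r) 0) ^ 2)) ∧
    ∫ t : ℝ, Real.exp (-a * (max (|t| - r) 0) ^ 2) = 2 * r + Real.sqrt (Real.pi / a) := by
  have hval : ∫ t : ℝ, Real.exp (-a * (max (|t| - r) 0) ^ 2) = 2 * r + Real.sqrt (Real.pi / a) := by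
    rw [integral_comp_abs (f := fun t => Real.exp (-a * (max (t - r) 0) ^ 2))]
    have hsplit : Ioi (0 : ℝ) = Ioc 0 r ∪ Ioi r := (Ioc_union_Ioi_eq_Ioi hr).symm
    have h1 : ∀ t ∈ Ioc (0 : ℝ) r, Real.exp (-a * (max (t - r) 0) ^ 2) = 1 := by
      intro t ht
      rw [max_eq_right (by linarith [ht.2])]
      simp
    have h2 : ∀ t ∈ Ioi r, Real.exp (-a * (max (t - r) 0) ^ 2) = Real.exp (-a * (t - r) ^ 2) := by
      intro t ht
      rw [max_eq_left (by linarith [mem_Ioi.1 ht])]
    have hi2 : Integrable (fun t : ℝ => Real.exp (-a * (t - r) ^ 2)) :=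
      (integrable_exp_neg_mul_sq ha).comp_sub_right r
    rw [hsplit, setIntegral_union (Ioc_disjoint_Ioi le_rfl) measurableSet_Ioi]
    · rw [setIntegral_congr_fun measurableSet_Ioc h1, setIntegral_congr_fun measurableSet_Ioi h2]
      have h3 : ∫ t in Ioi r, Real.exp (-a * (t - r) ^ 2) = Real.sqrt (Real.pi / a) / 2 := by
        rw [← integral_gaussian_Ioi a, ← integral_indicator measurableSet_Ioi,
          ← integral_indicator measurableSet_Ioi]
        have h4 : (Ioi r).indicator (fun t => Real.exp (-a * (t - r) ^ 2)) =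
            fun t => (Ioi (0 : ℝ)).indicator (fun u => Real.exp (-a * u ^ 2)) (t - r) := by
          funext t
          by_cases ht : r < t
          · rw [indicator_of_mem (mem_Ioi.2 ht), indicator_of_mem (mem_Ioi.2 (sub_pos.2 ht))]
          · rw [indicator_of_notMem (by simpa using ht), indicator_of_notMem (by simpa using ht)]
        rw [h4]
        exact integral_sub_right_eq_self _ r
      rw [h3]
      simp
      rw [max_eq_left hr]
      ring
    · exact (integrableOn_congr_fun h1 measurableSet_Ioc).2 (by simp)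
    · exact (integrableOn_congr_fun h2 measurableSet_Ioi).2 hi2.integrableOn
  refine ⟨?_, hval⟩
  by_contra hni
  rw [integral_undef hni] at hval
  have : 0 < Real.sqrt (Real.pi / a) := Real.sqrt_pos.2 (by positivity)
  linarith

theorem U3_amgm (n : ℕ) (hn : 0 < n) (c : E n) (α : ℝ) (hα : 0 ≤ α) :
    ∏ i, (2 * |c i| + α) ≤ (2 * ‖c‖ / Real.sqrt n + α) ^ n := by
  have hnR : (0 : ℝ) < n := by exact_mod_cast hn
  have hz : ∀ i, 0 ≤ 2 * |c i| + α := fun i => by positivity
  have h1 := Real.geom_mean_le_arith_mean Finset.univ (fun _ : Fin n => (1 : ℝ))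
    (fun i => 2 * |c i| + α) (fun _ _ => zero_le_one) (by simpa using hn) (fun i _ => hz i)
  simp only [Real.rpow_one, Finset.sum_const, Finset.card_univ, Fintype.card_fin, nsmul_eq_mul,
    mul_one, one_mul] at h1
  have hsn : 0 < Real.sqrt n := Real.sqrt_pos.2 hnR
  have hsn2 : Real.sqrt n * Real.sqrt n = n := Real.mul_self_sqrt hnR.le
  have h2 : ∑ i, |c i| ≤ Real.sqrt n * ‖c‖ := by
    have h3 := sq_sum_le_card_mul_sum_sq (s := Finset.univ) (f := fun i => |c i|)
    simp only [Finset.card_univ, Fintype.card_fin, sq_abs] at h3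
    have h4 : ‖c‖ ^ 2 = ∑ i, (c i) ^ 2 := by
      rw [EuclideanSpace.norm_sq_eq]
      exact Finset.sum_congr rfl fun i _ => by rw [Real.norm_eq_abs, sq_abs]
    rw [← h4] at h3
    apply le_of_sq_le_sq _ (by positivity)
    rw [mul_pow, Real.sq_sqrt hnR.le]
    exact h3
  have h5 : (∑ i, (2 * |c i| + α)) / n ≤ 2 * ‖c‖ / Real.sqrt n + α := by
    rw [Finset.sum_add_distrib, ← Finset.mul_sum, Finset.sum_const, Finset.card_univ,
      Fintype.card_fin, nsmul_eq_mul, add_div, mul_div_cancel_left₀ _ hnR.ne']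
    have h6 : 2 * ∑ i, |c i| / n ≤ 2 * ‖c‖ / Real.sqrt n := by
      rw [← Finset.sum_div, ← mul_div_assoc, div_le_div_iff₀ hnR hsn]
      have h9 : (∑ i, |c i|) * Real.sqrt n ≤ ‖c‖ * n := by
        calc (∑ i, |c i|) * Real.sqrt n ≤ Real.sqrt n * ‖c‖ * Real.sqrt n :=
              mul_le_mul_of_nonneg_right h2 hsn.le
          _ = (Real.sqrt n * Real.sqrt n) * ‖c‖ := by ring
          _ = ‖c‖ * n := by rw [hsn2]; ring
      linarith
    have h7 : 2 * ∑ i, |c i| / n = (2 * ∑ i, |c i|) / n := by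
      rw [← Finset.sum_div]; ring
    linarith
  have h8 : 0 ≤ ∏ i, (2 * |c i| + α) := Finset.prod_nonneg fun i _ => hz i
  calc ∏ i, (2 * |c i| + α) = ((∏ i, (2 * |c i| + α)) ^ ((n : ℝ)⁻¹)) ^ n := by
        rw [Real.rpow_inv_natCast_pow h8 hn.ne']
    _ ≤ (2 * ‖c‖ / Real.sqrt n + α) ^ n :=
        pow_le_pow_left₀ (Real.rpow_nonneg h8 _) (h1.trans h5) n

theorem U3 : U3_stmt := by
  intro n c W L hn hL
  have hnR : (0 : ℝ) < n := by exact_mod_cast hn
  set a : ℝ := n * L with ha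
  have hapos : 0 < a := mul_pos hnR hL
  let f : Fin n → ℝ → ℝ := fun i t => Real.exp (-a * (max (|t| - |c i|) 0) ^ 2)
  have hint : Integrable (fun x : Fin n → ℝ => ∏ i, f i (x i)) :=
    Integrable.fintype_prod (f := f) fun i => (U3_one a |c i| hapos (abs_nonneg _)).1
  have hval : ∫ x : Fin n → ℝ, ∏ i, f i (x i) = ∏ i, (2 * |c i| + Real.sqrt (Real.pi / a)) := by
    rw [integral_fintype_prod_volume_eq_prod (f := f)]
    exact Finset.prod_congr rfl fun i _ => (U3_one a |c i| hapos (abs_nonneg _)).2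
  have hprod : ∀ x : Fin n → ℝ, ∏ i, f i (x i) =
      Real.exp (-a * ∑ i, (max (|x i| - |c i|) 0) ^ 2) := by
    intro x
    rw [Finset.mul_sum, Real.exp_sum]
  -- transfer to the product space
  have hset : volume {b : E n | ∑ i, (max (|b i| - |c i|) 0) ^ 2 ≤ W} =
      volume {x : Fin n → ℝ | ∑ i, (max (|x i| - |c i|) 0) ^ 2 ≤ W} := by
    have hm : MeasurableSet {x : Fin n → ℝ | ∑ i, (max (|x i| - |c i|) 0) ^ 2 ≤ W} :=
      measurableSet_le (by fun_prop) measurable_const
    rw [← (PiLp.volume_preserving_ofLp (Fin n)).measure_preimage hm.nullMeasurableSet]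
    rfl
  rw [hset]
  have hmark := mul_meas_ge_le_lintegral₀
    (μ := (volume : Measure (Fin n → ℝ)))
    (f := fun x => ENNReal.ofReal (∏ i, f i (x i)))
    (hint.aestronglyMeasurable.aemeasurable.ennreal_ofReal) (ENNReal.ofReal (Real.exp (-a * W)))
  rw [← ofReal_integral_eq_lintegral_ofReal hint
    (Filter.Eventually.of_forall fun x => Finset.prod_nonneg fun i _ => (Real.exp_pos _).le),
    hval] at hmark
  have hsub : {x : Fin n → ℝ | ∑ i, (max (|x i| - |c i|) 0) ^ 2 ≤ W} ⊆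
      {x | ENNReal.ofReal (Real.exp (-a * W)) ≤ ENNReal.ofReal (∏ i, f i (x i))} := by
    intro x hx
    apply ENNReal.ofReal_le_ofReal
    rw [hprod]
    apply Real.exp_le_exp.2
    have h1 : ∑ i, (max (|x i| - |c i|) 0) ^ 2 ≤ W := hx
    nlinarith
  have h2 := (mul_le_mul_right (measure_mono (μ := volume) hsub)
    (ENNReal.ofReal (Real.exp (-a * W)))).trans hmark
  have h3 : volume {x : Fin n → ℝ | ∑ i, (max (|x i| - |c i|) 0) ^ 2 ≤ W} ≤
      ENNReal.ofReal (Real.exp (a * W) * ∏ i, (2 * |c i| + Real.sqrt (Real.pi / a))) := by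
    have h4 : ENNReal.ofReal (Real.exp (a * W)) * ENNReal.ofReal (Real.exp (-a * W)) = 1 := by
      rw [← ENNReal.ofReal_mul (Real.exp_pos _).le, ← Real.exp_add]
      simp
    calc volume {x : Fin n → ℝ | ∑ i, (max (|x i| - |c i|) 0) ^ 2 ≤ W}
        = ENNReal.ofReal (Real.exp (a * W)) * (ENNReal.ofReal (Real.exp (-a * W)) *
          volume {x : Fin n → ℝ | ∑ i, (max (|x i| - |c i|) 0) ^ 2 ≤ W}) := by
          rw [← mul_assoc, h4, one_mul]
      _ ≤ ENNReal.ofReal (Real.exp (a * W)) *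
          ENNReal.ofReal (∏ i, (2 * |c i| + Real.sqrt (Real.pi / a))) := by
          gcongr
      _ = _ := by rw [← ENNReal.ofReal_mul (Real.exp_pos _).le]
  refine h3.trans (ENNReal.ofReal_le_ofReal ?_)
  have hα : 0 ≤ Real.sqrt (Real.pi / a) := Real.sqrt_nonneg _
  have h5 := U3_amgm n hn c _ hα
  have hsn : 0 < Real.sqrt n := Real.sqrt_pos.2 hnR
  have h6 : Real.sqrt (Real.pi / a) = Real.sqrt (Real.pi / L) / Real.sqrt n := by
    rw [← Real.sqrt_div (by positivity), ha]
    congr 1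
    field_simp
  have h7 : (n : ℝ) ^ ((n : ℝ) / 2) = Real.sqrt n ^ n := by
    rw [Real.sqrt_eq_rpow, ← Real.rpow_natCast, ← Real.rpow_mul hnR.le]
    congr 1
    ring
  have h8 : Real.exp (a * W) = Real.exp (L * W) ^ n := by
    rw [← Real.exp_nat_mul, ha]
    congr 1
    ring
  calc Real.exp (a * W) * ∏ i, (2 * |c i| + Real.sqrt (Real.pi / a))
      ≤ Real.exp (a * W) * (2 * ‖c‖ / Real.sqrt n + Real.sqrt (Real.pi / a)) ^ n := by
        gcongr
    _ = _ := by
        rw [h6, h7, h8, ← mul_pow, ← div_pow]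
        congr 1
        ring

end Pool.Agent.helper81.CW
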